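import Pool.Agent.H6.FB.Stmts

/-!
# Project FB, module INJ: injectivity in dimension two
-/

set_option autoImplicit false

open Metric Set Filter Topology

namespace Pool.Agent.H6.FB

/-- the case `t' = t + 1` is impossible -/
theorem inj_step (hA : TTAStmt) (hB : TTBStmt) (hC : TTCStmt) (hD : BBBStmt) (x y x' y' : ℂ)
    (hy : ‖y‖ < RR) (hx' : ‖x'‖ < RR) (hs : x * y ∈ DD) (hs' : x' * y' ∈ DD)
    (ha : x * aa (x * y) = x' * aa (x' * y')) (hb : y * bb (x * y) = y' * bb (x' * y'))
    (ht : tt (x' * y') = tt (x * y) + 1) : False := by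
  obtain ⟨-, -, hR1, hR2, -, -, -, hs1, hs2, hR3⟩ := hA
  obtain ⟨-, ht0, hts0, -, -, hinj, -⟩ := hB
  obtain ⟨-, hb0, -, hbs, -⟩ := hD
  have hs0D : (s0 : ℂ) ∈ DD := by
    unfold DD
    rw [mem_ball_zero_iff, Complex.norm_real, Real.norm_of_nonneg (by linarith)]
    linarith
  obtain ⟨h1, h2⟩ := hC _ hs _ hs' ht
  set s := x * y with hsdef
  set s' := x' * y' with hsdef'
  set t := tt s with htdef
  by_cases h0 : s = 0
  · -- `s = 0`
    have htz : t = 0 := by rw [htdef, h0, ht0]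
    have hs'0 : s' = s0 := by
      apply hinj _ hs' _ hs0D
      rw [ht, htz, hts0, zero_add]
    have haa : aa s' = 0 := by
      unfold aa AA
      rw [ht, htz]
      simp
    have haa0 : aa s = 1 := by
      unfold aa AA
      rw [← htdef, htz]
      simp
    rw [haa, haa0, mul_one, mul_zero] at ha
    have hbb : bb s = 1 := by rw [h0, hb0]
    rw [hbb, mul_one, hs'0] at hb
    have h3 : ‖x'‖ * ‖y'‖ = s0 := by
      rw [← norm_mul, ← hsdef', hs'0, Complex.norm_real, Real.norm_of_nonneg (by linarith)]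
    have h4 : ‖y‖ = ‖y'‖ * ‖bb s0‖ := by rw [hb, norm_mul]
    have hy'0 := norm_nonneg y'
    have h5 : s0 ≤ 11 / 10 * ‖y'‖ := by
      rw [← h3]
      exact mul_le_mul_of_nonneg_right (by linarith) hy'0
    have h6 : ‖y'‖ * 14 ≤ ‖y‖ := by
      rw [h4]
      exact mul_le_mul_of_nonneg_left hbs hy'0
    linarith
  · have hx0 : x ≠ 0 := by
      rintro rfl
      exact h0 (by simp [hsdef])
    have hxp : 0 < ‖x‖ := norm_pos_iff.2 hx0
    have e1 : aa s = (1 - t) * Complex.exp (t + t ^ 2 / 2) := rfl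
    have e2 : aa s' = -t * Complex.exp (3 / 2 + t) * Complex.exp (t + t ^ 2 / 2) := by
      unfold aa AA
      rw [ht, mul_assoc, ← Complex.exp_add]
      congr 1
      · ring
      · congr 1
        ring
    have e3 : x * (1 - t) = -(x' * t * Complex.exp (3 / 2 + t)) := by
      have hne := Complex.exp_ne_zero (t + t ^ 2 / 2)
      rw [e1, e2] at ha
      apply mul_right_cancel₀ hne
      linear_combination ha
    have e4 : ‖x‖ * ‖1 - t‖ = ‖x'‖ * ‖t‖ * Real.exp (3 / 2 + t.re) := by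
      have := congrArg norm e3
      rw [norm_mul, norm_neg, norm_mul, norm_mul, Complex.norm_exp] at this
      simpa using this
    have hsn : ‖s‖ = ‖x‖ * ‖y‖ := norm_mul x y
    have hs3 : ‖s‖ < 1 := by
      have := mem_ball_zero_iff.1 hs
      nlinarith
    have h5 : ‖s‖ ≤ ‖x‖ * (11 / 10) := by
      rw [hsn]
      exact mul_le_mul_of_nonneg_left (by linarith) hxp.le
    have h6 : 9 / 10 ≤ ‖1 - t‖ := by
      have h7 := norm_sub_norm_le (1 : ℂ) t
      rw [norm_one] at h7
      linarith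
    have h8 : Real.exp (3 / 2 + t.re) ≤ 15 / 2 := by
      have h9 : Real.exp (3 / 2 + t.re) ≤ Real.exp 2 := Real.exp_le_exp.2 (by linarith)
      have h10 : Real.exp 2 = Real.exp 1 ^ 2 := by
        rw [← Real.exp_nat_mul]
        norm_num
      have h11 := Real.exp_one_lt_d9
      have h12 := Real.exp_pos 1
      nlinarith
    have h9 : ‖x'‖ * ‖t‖ * Real.exp (3 / 2 + t.re) ≤ 11 / 10 * (‖s‖ / 16) * (15 / 2) := by
      have h10 : ‖x'‖ * ‖t‖ ≤ 11 / 10 * (‖s‖ / 16) :=
        mul_le_mul (by linarith) h1 (norm_nonneg t) (by norm_num)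
      exact mul_le_mul h10 h8 (Real.exp_pos _).le (by positivity)
    have h10 : ‖x‖ * (9 / 10) ≤ ‖x‖ * ‖1 - t‖ := mul_le_mul_of_nonneg_left h6 hxp.le
    rw [e4] at h10
    nlinarith

theorem inj_thm (hA : TTAStmt) (hB : TTBStmt) (hC : TTCStmt) (hD : BBBStmt) : INJStmt := by
  intro x y x' y' hx hy hx' hy' hs hs' ha hb
  obtain ⟨κ, hκ, hk⟩ := hD.2.2.2.2
  have h1 : κ * (Complex.exp (2 * Real.pi * Complex.I * tt (x * y)) - 1) =
      κ * (Complex.exp (2 * Real.pi * Complex.I * tt (x' * y')) - 1) := by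
    rw [← hk _ hs, ← hk _ hs']
    linear_combination (y * bb (x * y)) * ha + (x' * aa (x' * y')) * hb
  have h2 : Complex.exp (2 * Real.pi * Complex.I * tt (x * y)) =
      Complex.exp (2 * Real.pi * Complex.I * tt (x' * y')) := by
    have := mul_left_cancel₀ hκ h1
    exact sub_left_inj.1 this
  obtain ⟨n, hn⟩ := Complex.exp_eq_exp_iff_exists_int.1 h2
  have hpi : (2 * Real.pi * Complex.I : ℂ) ≠ 0 := by
    simp [Real.pi_ne_zero, Complex.I_ne_zero]
  have h3 : tt (x * y) = tt (x' * y') + n := by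
    apply mul_left_cancel₀ hpi
    rw [hn]
    ring
  obtain ⟨r1, r2, -⟩ := hB.2.2.2.2.1 _ hs
  obtain ⟨r3, r4, -⟩ := hB.2.2.2.2.1 _ hs'
  have h4 := congrArg Complex.re h3
  rw [Complex.add_re, Complex.intCast_re] at h4
  have h5 : (n : ℝ) < 2 := by linarith
  have h6 : (-2 : ℝ) < n := by linarith
  have h7 : n < 2 := by exact_mod_cast h5
  have h8 : -2 < n := by exact_mod_cast h6
  have h9 : n = 0 ∨ n = 1 ∨ n = -1 := by omega
  rcases h9 with rfl | rfl | rfl
  · -- equal values
    rw [Int.cast_zero, add_zero] at h3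
    have hss : x * y = x' * y' := hB.2.2.2.2.2.1 _ hs _ hs' h3
    rw [← hss] at ha hb
    have hbne := hD.2.2.1 _ hs
    have hyy : y = y' := mul_right_cancel₀ hbne hb
    subst hyy
    refine ⟨?_, rfl⟩
    by_cases hy0 : y = 0
    · have haa : aa (x * y) = 1 := by
        unfold aa AA
        rw [hy0, mul_zero, hB.2.1]
        simp
      rw [haa, mul_one, mul_one] at ha
      exact ha
    · exact mul_right_cancel₀ hy0 hss
  · exfalso
    exact inj_step hA hB hC hD x' y' x y hy' hx hs' hs ha.symm hb.symm (by rw [h3]; simp)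
  · exfalso
    exact inj_step hA hB hC hD x y x' y' hy hx' hs hs' ha hb (by rw [h3]; simp)

end Pool.Agent.H6.FB
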