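import Pool.Agent.H6.FB.Stmts

/-!
# Project FB, module LCZ: the local model
-/

set_option autoImplicit false

open Metric Set Filter Topology

namespace Pool.Agent.H6.FB

theorem lcz_perp (E : Type) [NormedAddCommGroup E] [InnerProductSpace ℂ E]
    [FiniteDimensional ℂ E] (hE : 2 ≤ Module.finrank ℂ E) (e : E) :
    ∃ e' : E, ‖e'‖ = 1 ∧ inner ℂ e e' = (0 : ℂ) := by
  set S : Submodule ℂ E := Submodule.span ℂ {e} with hS
  have h1 : Module.finrank ℂ S ≤ 1 := by
    have h2 := finrank_span_le_card (R := ℂ) ({e} : Set E)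
    simpa using h2
  have h2 := Submodule.finrank_add_finrank_orthogonal S
  have h3 : 0 < Module.finrank ℂ Sᗮ := by omega
  have h4 : Nontrivial Sᗮ := Module.nontrivial_of_finrank_pos h3
  obtain ⟨x, hx⟩ := exists_ne (0 : Sᗮ)
  have hx0 : (x : E) ≠ 0 := by
    intro h
    exact hx (Subtype.ext h)
  refine ⟨((‖(x : E)‖ : ℂ))⁻¹ • (x : E), norm_smul_inv_norm hx0, ?_⟩
  rw [inner_smul_right]
  have h5 : inner ℂ e (x : E) = (0 : ℂ) := Submodule.mem_orthogonal_singleton_iff_inner_right.1 x.2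
  rw [h5, mul_zero]

theorem lcz_choose {K V ε : ℝ} (hε : 0 < ε) : ∃ l : ℝ, 0 < l ∧ l < 1 ∧
    K * Real.sqrt (1 - l) < ε ∧ (1 - l) + Real.sqrt (1 - l ^ 2) * V < ε := by
  have h1 : ∀ᶠ l : ℝ in 𝓝 1, K * Real.sqrt (1 - l) < ε := by
    have hc : ContinuousAt (fun l : ℝ => K * Real.sqrt (1 - l)) 1 := by fun_prop
    have := hc.eventually_lt (g := fun _ => ε) continuousAt_const (by simpa using hε)
    exact this
  have h2 : ∀ᶠ l : ℝ in 𝓝 1, (1 - l) + Real.sqrt (1 - l ^ 2) * V < ε := by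
    have hc : ContinuousAt (fun l : ℝ => (1 - l) + Real.sqrt (1 - l ^ 2) * V) 1 := by fun_prop
    have := hc.eventually_lt (g := fun _ => ε) continuousAt_const (by simpa using hε)
    exact this
  have h3 : ∀ᶠ l : ℝ in 𝓝 1, 0 < l := lt_mem_nhds one_pos
  have h4 : ∀ᶠ l : ℝ in 𝓝[<] 1, l < 1 := self_mem_nhdsWithin
  obtain ⟨l, hl, hl4⟩ := (((h1.and (h2.and h3)).filter_mono nhdsWithin_le_nhds).and h4).exists
  exact ⟨l, hl.2.2, hl4, hl.1, hl.2.1⟩

theorem lcz_thm (hL : LOCStmt) (hP : PLAStmt) (hA : GMAStmt) (hB : GMBStmt) (hN : NEAStmt) :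
    LCZStmt := by
  intro E _ _ _ hE v hv ε hε
  obtain ⟨a, b, R, C, s₀, hloc⟩ := hL
  obtain ⟨K, hK, hN⟩ := hN a b R C s₀ hloc
  set e : E := -v with he
  have hen : ‖e‖ = 1 := by rw [he, norm_neg, hv]
  obtain ⟨e', he'n, hee'⟩ := lcz_perp E hE e
  obtain ⟨hGd, hGi, -, hG2, hGc⟩ := hA a b R C s₀ hloc E e e' hen he'n hee'
  have hGB := hB a b R C s₀ hloc E e e' hen he'n hee'
  set V : ℝ := ‖b s₀‖ / Real.sqrt 2 with hV
  have hV2 : 2 ≤ V := by
    rw [hV, le_div_iff₀ (by positivity)]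
    have h1 := hloc.b_s₀
    have h2 : Real.sqrt 2 ≤ 3 / 2 := by
      rw [Real.sqrt_le_left (by norm_num)]
      norm_num
    linarith
  obtain ⟨l, hl0, hl1, hlK, hlV⟩ := lcz_choose (K := K) (V := V) hε
  have hNl := hN E e e' hen he'n hee' l hl0 hl1
  have hla : |l| < 1 := by rwa [abs_of_pos hl0]
  have hla' : |(-l)| < 1 := by rwa [abs_neg]
  obtain ⟨p1, p2, p3, p4⟩ := hP E e hen l hla
  obtain ⟨m1, m2, m3, m4⟩ := hP E e hen (-l) hla'
  simp only [neg_neg] at m3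
  have hR := hloc.one_lt
  -- points of the image of the closed ball under `Gm` are admissible
  have hadm : ∀ w : E, ‖w‖ ≤ 1 → 1 + ((-l : ℝ) : ℂ) * inner ℂ e (Gm a b e e' w) ≠ 0 := by
    intro w hw h0
    have h1 := hGB w hw
    have h2 : ‖(inner ℂ e (Gm a b e e' w) : ℂ)‖ ≤ 1 := by
      have h3 := norm_nonneg (inner ℂ e (Gm a b e e' w) : ℂ)
      have h4 := sq_nonneg ‖(inner ℂ e' w : ℂ)‖
      nlinarith
    have h3 : ((l : ℝ) : ℂ) * inner ℂ e (Gm a b e e' w) = 1 := by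
      have : (1 : ℂ) + ((-l : ℝ) : ℂ) * inner ℂ e (Gm a b e e' w) = 0 := h0
      push_cast at this
      linear_combination -this
    have h4 := congrArg norm h3
    rw [norm_mul, Complex.norm_real, Real.norm_of_nonneg hl0.le, norm_one] at h4
    nlinarith
  set h : E → E := fun z => Pl (-l) e (Gm a b e e' (Pl l e z)) with hh
  -- the affine disc
  have hdisc : ∀ c : ℂ, Pl (-l) e (c • e') =
      (-((l : ℝ) : ℂ)) • e + (((Real.sqrt (1 - l ^ 2) : ℝ) : ℂ) * c) • e' := by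
    intro c
    unfold Pl
    rw [inner_smul_right, hee']
    simp only [mul_zero, add_zero, inv_one, one_smul, zero_add, zero_smul, sub_zero, neg_sq]
    rw [smul_smul]
    push_cast
    rfl
  set p : E := (-((l : ℝ) : ℂ)) • e with hp
  set q : E := (((Real.sqrt (1 - l ^ 2) : ℝ) : ℂ) * (V : ℂ)) • e' with hq
  have hpq : ∀ ζ : ℂ, p + ζ • q = Pl (-l) e (((V : ℂ) * ζ) • e') := by
    intro ζ
    rw [hdisc, hp, hq, smul_smul]
    congr 2
    ring
  have hU1 : IsOpen {z : E | 1 + (l : ℂ) * inner ℂ e z ≠ 0} := by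
    have hc : Continuous fun z : E => 1 + (l : ℂ) * inner ℂ e z :=
      continuous_const.add (continuous_const.mul (continuous_const.inner continuous_id))
    exact isOpen_ne.preimage hc
  set U1 : Set E := {z : E | 1 + (l : ℂ) * inner ℂ e z ≠ 0} with hU1d
  set U2 : Set E := U1 ∩ Pl l e ⁻¹' ball 0 R with hU2d
  have hU2 : IsOpen U2 := p4.continuousOn.isOpen_inter_preimage hU1 isOpen_ball
  have hd2 : DifferentiableOn ℂ (fun z => Gm a b e e' (Pl l e z)) U2 :=
    hGd.comp (p4.mono inter_subset_left) fun z hz => hz.2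
  set N : Set E := {u : E | 1 + ((-l : ℝ) : ℂ) * inner ℂ e u ≠ 0} with hNd
  have hNo : IsOpen N := by
    have hc : Continuous fun z : E => 1 + ((-l : ℝ) : ℂ) * inner ℂ e z :=
      continuous_const.add (continuous_const.mul (continuous_const.inner continuous_id))
    exact isOpen_ne.preimage hc
  set U3 : Set E := U2 ∩ (fun z => Gm a b e e' (Pl l e z)) ⁻¹' N with hU3d
  have hU3 : IsOpen U3 := hd2.continuousOn.isOpen_inter_preimage hU2 hNo
  refine ⟨h, ⟨U3, hU3, ?_, ?_, ?_⟩, ?_, p, q, ?_, ?_, ?_⟩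
  · -- the closed ball
    intro z hz
    have hz1 : ‖z‖ ≤ 1 := by simpa using hz
    obtain ⟨h1, h2⟩ := p1 z hz1
    refine ⟨⟨h1, ?_⟩, hadm _ h2⟩
    rw [mem_preimage, mem_ball_zero_iff]
    linarith
  · exact m4.comp (hd2.mono inter_subset_left) fun z hz => hz.2
  · intro z hz z' hz' hzz
    have h1 : Gm a b e e' (Pl l e z) = Gm a b e e' (Pl l e z') := by
      have e1 : Pl l e (Pl (-l) e (Gm a b e e' (Pl l e z))) = Gm a b e e' (Pl l e z) :=
        (m3 _ hz.2).2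
      have e2 : Pl l e (Pl (-l) e (Gm a b e e' (Pl l e z'))) = Gm a b e e' (Pl l e z') :=
        (m3 _ hz'.2).2
      have e3 : Pl (-l) e (Gm a b e e' (Pl l e z)) = Pl (-l) e (Gm a b e e' (Pl l e z')) := hzz
      rw [← e1, ← e2, e3]
    have h2 := hGi hz.1.2 hz'.1.2 h1
    rw [← (p3 z hz.1.1).2, ← (p3 z' hz'.1.1).2, h2]
  · intro z hz
    have hz1 : ‖z‖ ≤ 1 := by simpa using hz
    obtain ⟨h1, h2⟩ := p1 z hz1
    have h3 := hNl (Pl l e z) h2
    rw [(p3 z h1).2] at h3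
    exact h3.trans_lt hlK
  · intro ζ hζ
    have hζ1 : ‖ζ‖ ≤ 1 := by simpa using hζ
    have e1 : p + ζ • q - v = (((l : ℝ) : ℂ) - 1) • v + ζ • q := by
      rw [hp, he, sub_smul, one_smul, smul_neg, neg_smul, neg_neg]
      abel
    rw [e1]
    refine (norm_add_le _ _).trans_lt (lt_of_le_of_lt (add_le_add ?_ ?_) hlV)
    · rw [norm_smul, hv, mul_one, ← Complex.ofReal_one, ← Complex.ofReal_sub, Complex.norm_real,
        Real.norm_eq_abs, abs_of_nonpos (by linarith)]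
      linarith
    · rw [norm_smul, hq, norm_smul, he'n, mul_one, norm_mul, Complex.norm_real,
        Complex.norm_real, Real.norm_of_nonneg (Real.sqrt_nonneg _),
        Real.norm_of_nonneg (by linarith)]
      have h5 : 0 ≤ Real.sqrt (1 - l ^ 2) * V :=
        mul_nonneg (Real.sqrt_nonneg _) (by linarith)
      calc ‖ζ‖ * (Real.sqrt (1 - l ^ 2) * V) ≤ 1 * (Real.sqrt (1 - l ^ 2) * V) :=
            mul_le_mul_of_nonneg_right hζ1 h5
        _ = _ := one_mul _
  · intro ζ hζ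
    have hζ1 : ‖ζ‖ = 1 := by simpa using hζ
    obtain ⟨w, hw, hwe⟩ := hGc ζ hζ1
    have hw1 : ‖w‖ < 1 := by simpa using hw
    obtain ⟨h1, -⟩ := m1 w hw1.le
    refine ⟨Pl (-l) e w, ?_, ?_⟩
    · rw [mem_ball_zero_iff]
      exact m2 w hw1
    · simp only [hh]
      rw [(m3 w h1).2, hwe, hpq]
  · refine ⟨((2 / V : ℝ) : ℂ), ?_, ?_⟩
    · rw [mem_closedBall_zero_iff, Complex.norm_real, Real.norm_of_nonneg (by positivity),
        div_le_one (by linarith)]
      exact hV2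
    · rintro ⟨z, hz, hzz⟩
      have hz1 : ‖z‖ ≤ 1 := by simpa using hz
      obtain ⟨h1, h2⟩ := p1 z hz1
      have e1 : (V : ℂ) * ((2 / V : ℝ) : ℂ) = 2 := by
        have : (V : ℂ) ≠ 0 := by
          exact_mod_cast (by linarith : V ≠ 0)
        push_cast
        field_simp
      rw [hpq, e1] at hzz
      have e2 : Pl (-l) e (Gm a b e e' (Pl l e z)) = Pl (-l) e ((2 : ℂ) • e') := hzz
      have e3 := (m3 _ (hadm _ h2)).2
      have e4 := (m3 ((2 : ℂ) • e') (by
        rw [inner_smul_right, hee']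
        simp)).2
      refine hG2 ⟨Pl l e z, ?_, ?_⟩
      · rw [mem_ball_zero_iff]
        linarith
      · rw [← e3, ← e4, e2]

end Pool.Agent.H6.FB
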